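import Pool.Agent.Run7.h563.DM.C
import Pool.Agent.Run7.h563.LS.E

set_option autoImplicit false

/-!
# Discrete and continuous moments of every positive real order, in short windows
-/

namespace Run7.h563.DM

open Complex MeasureTheory Filter Topology Set Q97.RB Q97.MM MeromorphicOn Metric Run7.h563.LS

noncomputable section

theorem gauss_pow {β Δ : ℝ} (hβ : 0 < β) (hΔ : 0 < Δ) (T : ℝ) (s : ℂ) :
    ‖cexp ((s - 1 / 2 - T * I) ^ 2 / ((β * Δ ^ 2 : ℝ) : ℂ))‖ ^ β =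
      Real.exp ((s.re - 1 / 2) ^ 2 / Δ ^ 2) * wt T Δ s.im := by
  rw [Complex.norm_exp, ← Real.exp_mul, wt, ← Real.exp_add]
  congr 1
  have e1 : s - 1 / 2 - T * I = ((s.re - 1 / 2 : ℝ) : ℂ) + ((s.im - T : ℝ) : ℂ) * I := by
    apply Complex.ext <;> simp
  rw [e1]
  have e3 : (((s.re - 1 / 2 : ℝ) : ℂ) + ((s.im - T : ℝ) : ℂ) * I) ^ 2 =
      (((s.re - 1 / 2) ^ 2 - (s.im - T) ^ 2 : ℝ) : ℂ) + ((2 * (s.re - 1 / 2) * (s.im - T) : ℝ) : ℂ) * I := by
    push_cast
    ring_nf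
    rw [Complex.I_sq]
    ring
  rw [e3, Complex.div_ofReal_re]
  simp only [Complex.add_re, Complex.ofReal_re, Complex.mul_re, Complex.I_re, mul_zero, Complex.ofReal_im,
    Complex.I_im, mul_one, sub_self, add_zero]
  rw [div_pow]
  field_simp
  ring

theorem deriv_GW {β T Δ : ℝ} {ρ : ℂ} (h1 : ρ ≠ 1) (h0 : riemannZeta ρ = 0) :
    deriv (GW β T Δ) ρ = (ρ - 1) * deriv riemannZeta ρ *
      cexp ((ρ - 1 / 2 - T * I) ^ 2 / ((β * Δ ^ 2 : ℝ) : ℂ)) := by
  have hZ : Z1 ρ = 0 := by rw [Z1_of_ne h1, h0, mul_zero]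
  have h2 : GW β T Δ = fun s => Z1 s * (fun s : ℂ => cexp ((s - 1 / 2 - T * I) ^ 2 / ((β * Δ ^ 2 : ℝ) : ℂ))) s := rfl
  rw [h2, deriv_fun_mul Z1_differentiable.differentiableAt (by fun_prop), hZ, deriv_Z1 h1 h0]
  ring

/-- the discrete moment is at most `C (log T) ^ (β + 1)` times the continuous one -/
theorem window {β A : ℝ} (hβ : 0 < β) (hA : 0 ≤ A) : ∃ C B T₀ : ℝ, 0 < C ∧ 1 ≤ B ∧ 200 ≤ T₀ ∧
    ∀ T Δ : ℝ, T₀ ≤ T → 0 < Δ → B ≤ Δ ^ 2 * Real.log T → Δ ≤ T / Real.log T →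
    ∀ S : Finset ℂ, (∀ ρ ∈ S, riemannZeta ρ = 0 ∧ |ρ.re - 1 / 2| ≤ A / Real.log T ∧ T / 2 ≤ ρ.im) →
      ∑ ρ ∈ S, ‖deriv riemannZeta ρ‖ ^ β * wt T Δ ρ.im ≤
        C * Real.log T ^ (β + 1) * JB β T Δ (1 / 2) := by
  obtain ⟨B, T₁, hB1, hT₁, hband⟩ := band hβ one_pos one_pos
  obtain ⟨T₂, hT₂⟩ := PB_le_JB hβ one_pos
  have hπ := Real.pi_pos
  set K : ℝ := Real.exp ((β + 1) * (A + 11)) with hK
  have hK0 : 0 < K := Real.exp_pos _
  refine ⟨2 ^ β * (8 * (A + 11)) * K / (Real.pi * β), B, max (max T₁ T₂) (Real.exp (8 * (A + 11))),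
    by positivity, hB1, hT₁.trans ((le_max_left _ _).trans (le_max_left _ _)), fun T Δ hT hΔ hB h2 S hS => ?_⟩
  have hTT1 : T₁ ≤ T := (le_max_left _ _).trans ((le_max_left _ _).trans hT)
  have hTT2 : T₂ ≤ T := (le_max_right _ _).trans ((le_max_left _ _).trans hT)
  have hTe : Real.exp (8 * (A + 11)) ≤ T := (le_max_right _ _).trans hT
  have hT0 : 0 < T := by linarith
  have hL : 8 * (A + 11) ≤ Real.log T := by
    rw [Real.le_log_iff_exp_le hT0]; exact hTe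
  obtain ⟨-, hb⟩ := hband T Δ hTT1 hΔ hB h2
  have hPJ := hT₂ T Δ hTT2 hΔ (hB1.trans hB) h2
  set L := Real.log T with hLd
  have hL0 : 0 < L := by linarith
  set r : ℝ := 1 / L with hr
  have hr0 : 0 < r := by positivity
  have hr1 : (A + 11) * r ≤ 1 / 8 := by
    rw [hr, mul_one_div, div_le_iff₀ hL0]
    linarith
  have hAr : A / L = A * r := by rw [hr]; ring
  have hne1 : ∀ ρ ∈ S, ρ ≠ 1 := by
    intro ρ hρ h1
    have := (hS ρ hρ).2.2
    rw [h1] at this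
    simp at this
    linarith
  set F := GW β T Δ with hF
  have hFd : Differentiable ℂ F := GW_diff β T Δ
  -- an upper bound for the ordinates
  set Y : ℝ := ∑ ρ ∈ S, |ρ.im| with hY
  have hYρ : ∀ ρ ∈ S, |ρ.im| ≤ Y := fun ρ hρ =>
    Finset.single_le_sum (f := fun ρ : ℂ => |ρ.im|) (fun _ _ => abs_nonneg _) hρ
  have hcore := core hFd hβ hr0 S (fun ρ hρ => by
    rw [hF, GW, Z1_of_ne (hne1 ρ hρ), (hS ρ hρ).1, mul_zero, zero_mul])
    (a := 1 / 2 - (A + 2) * r) (b := 1 / 2 + (A + 2) * r) (c := -Y - 2 * r) (d := Y + 2 * r) (fun ρ hρ => by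
      obtain ⟨-, h2, h3⟩ := hS ρ hρ
      rw [hAr] at h2
      obtain ⟨h5, h6⟩ := abs_le.mp h2
      obtain ⟨h7, h8⟩ := abs_le.mp (hYρ ρ hρ)
      refine ⟨?_, ?_, ?_, ?_⟩ <;> linarith)
  have ea : 1 / 2 - (A + 2) * r - 9 * r = 1 / 2 - (A + 11) * r := by ring
  have eb : 1 / 2 + (A + 2) * r + 9 * r = 1 / 2 + (A + 11) * r := by ring
  rw [ea, eb] at hcore
  set P := PB β T Δ (1 / 2) with hP
  have hP0 : 0 < P := PB_pos hβ hΔ T (by norm_num) (by norm_num)
  set M : ℝ := 2 * K * P with hM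
  have hM0 : 0 ≤ M := by positivity
  have hbox : ∫⁻ p in box (1 / 2 - (A + 11) * r) (1 / 2 + (A + 11) * r) (-Y - 2 * r - 9 * r) (Y + 2 * r + 9 * r),
      ENNReal.ofReal (uu F β p) ≤ ENNReal.ofReal (2 * (A + 11) * r * M) := by
    have hcont := uu_cont hFd hβ
    unfold box
    rw [Measure.volume_eq_prod, ← Measure.prod_restrict, lintegral_prod _ (by fun_prop)]
    calc ∫⁻ x in Icc (1 / 2 - (A + 11) * r) (1 / 2 + (A + 11) * r),
          ∫⁻ y in Icc (-Y - 2 * r - 9 * r) (Y + 2 * r + 9 * r), ENNReal.ofReal (uu F β (x, y))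
        ≤ ∫⁻ _ in Icc (1 / 2 - (A + 11) * r) (1 / 2 + (A + 11) * r), ENNReal.ofReal M := by
          refine setLIntegral_mono measurable_const fun x hx => ?_
          obtain ⟨hx1, hx2⟩ := hx
          have hxx : |x - 1 / 2| ≤ (A + 11) * r := abs_le.mpr ⟨by linarith, by linarith⟩
          have h5 := hb (x - 1 / 2) (hxx.trans hr1)
          rw [show 1 / 2 + (x - 1 / 2) = x by ring, LI_half hβ hΔ T] at h5
          calc ∫⁻ y in Icc (-Y - 2 * r - 9 * r) (Y + 2 * r + 9 * r), ENNReal.ofReal (uu F β (x, y))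
              ≤ ∫⁻ y : ℝ, ENNReal.ofReal (‖F ((x : ℂ) + y * I)‖ ^ β) := setLIntegral_le_lintegral _ _
            _ = ENNReal.ofReal (LI F β x) := LI_lint hFd hβ (GW_gd hβ hΔ T) (by linarith) (by linarith)
            _ ≤ ENNReal.ofReal M := by
                apply ENNReal.ofReal_le_ofReal
                refine h5.trans ?_
                rw [hM, hK]
                have h6 : (β + 1) * |x - 1 / 2| * L ≤ (β + 1) * (A + 11) := by
                  have h7 : |x - 1 / 2| * L ≤ A + 11 := by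
                    calc |x - 1 / 2| * L ≤ (A + 11) * r * L := by gcongr
                      _ = A + 11 := by rw [hr]; field_simp
                  calc (β + 1) * |x - 1 / 2| * L = (β + 1) * (|x - 1 / 2| * L) := by ring
                    _ ≤ (β + 1) * (A + 11) := by gcongr
                have h8 : Real.exp ((β + 1) * |x - 1 / 2| * L) ≤ Real.exp ((β + 1) * (A + 11)) :=
                  Real.exp_le_exp.mpr h6
                calc (1 + 1) * Real.exp ((β + 1) * |x - 1 / 2| * L) * P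
                    ≤ (1 + 1) * Real.exp ((β + 1) * (A + 11)) * P := by gcongr
                  _ = 2 * Real.exp ((β + 1) * (A + 11)) * P := by ring
      _ = ENNReal.ofReal (2 * (A + 11) * r * M) := by
          rw [setLIntegral_const, Real.volume_Icc, ← ENNReal.ofReal_mul hM0]
          congr 1
          ring
  have h7 : ∑ ρ ∈ S, ‖deriv F ρ‖ ^ β ≤ r ^ (-β) / (Real.pi * r ^ 2) * β⁻¹ * (2 * (A + 11) * r * M) := by
    have h8 := hcore.trans (mul_le_mul' le_rfl hbox)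
    rw [← ENNReal.ofReal_mul (by positivity)] at h8
    exact (ENNReal.ofReal_le_ofReal_iff (by positivity)).mp h8
  have h9 : (T / 2) ^ β * ∑ ρ ∈ S, ‖deriv riemannZeta ρ‖ ^ β * wt T Δ ρ.im ≤ ∑ ρ ∈ S, ‖deriv F ρ‖ ^ β := by
    rw [Finset.mul_sum]
    refine Finset.sum_le_sum fun ρ hρ => ?_
    obtain ⟨h0, -, h3⟩ := hS ρ hρ
    rw [hF, deriv_GW (hne1 ρ hρ) h0, norm_mul, norm_mul, Real.mul_rpow (by positivity) (norm_nonneg _),
      Real.mul_rpow (norm_nonneg _) (norm_nonneg _), gauss_pow hβ hΔ]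
    have h10 : (T / 2) ^ β ≤ ‖ρ - 1‖ ^ β := by
      refine Real.rpow_le_rpow (by positivity) ?_ hβ.le
      refine le_trans ?_ (Complex.abs_im_le_norm _)
      rw [Complex.sub_im, Complex.one_im, sub_zero]
      exact h3.trans (le_abs_self _)
    have h11 : wt T Δ ρ.im ≤ Real.exp ((ρ.re - 1 / 2) ^ 2 / Δ ^ 2) * wt T Δ ρ.im := by
      have : 0 ≤ wt T Δ ρ.im := by unfold wt; positivity
      exact le_mul_of_one_le_left this (Real.one_le_exp (by positivity))
    have hw0 : 0 ≤ wt T Δ ρ.im := by unfold wt; positivity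
    calc (T / 2) ^ β * (‖deriv riemannZeta ρ‖ ^ β * wt T Δ ρ.im)
        ≤ ‖ρ - 1‖ ^ β * (‖deriv riemannZeta ρ‖ ^ β * (Real.exp ((ρ.re - 1 / 2) ^ 2 / Δ ^ 2) * wt T Δ ρ.im)) := by
          gcongr
      _ = _ := by ring
  have hTβ : 0 < (T / 2) ^ β := by positivity
  have hJ0 : 0 ≤ JB β T Δ (1 / 2) := by
    unfold JB
    exact integral_nonneg fun y => mul_nonneg (by positivity) (by unfold wt; positivity)
  have h12 : P ≤ 2 * T ^ β * JB β T Δ (1 / 2) := by
    refine hPJ.trans (le_of_eq ?_)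
    ring
  have e1 : r ^ (-β) = L ^ β := by
    rw [hr, one_div, Real.inv_rpow hL0.le, Real.rpow_neg hL0.le, inv_inv]
  have e2 : T ^ β = 2 ^ β * (T / 2) ^ β := by
    rw [← Real.mul_rpow (by norm_num) (by positivity)]
    congr 1
    ring
  have e3 : L ^ (β + 1) = L ^ β * L := by rw [Real.rpow_add hL0, Real.rpow_one]
  have h13 : r ^ (-β) / (Real.pi * r ^ 2) * β⁻¹ * (2 * (A + 11) * r * M) ≤
      (T / 2) ^ β * (2 ^ β * (8 * (A + 11)) * K / (Real.pi * β) * L ^ (β + 1) * JB β T Δ (1 / 2)) := by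
    calc r ^ (-β) / (Real.pi * r ^ 2) * β⁻¹ * (2 * (A + 11) * r * M)
        = L ^ β * L * (4 * (A + 11)) * K / (Real.pi * β) * P := by
          rw [e1, hM, hr]
          field_simp
          ring
      _ ≤ L ^ β * L * (4 * (A + 11)) * K / (Real.pi * β) * (2 * T ^ β * JB β T Δ (1 / 2)) := by gcongr
      _ = (T / 2) ^ β * (2 ^ β * (8 * (A + 11)) * K / (Real.pi * β) * L ^ (β + 1) * JB β T Δ (1 / 2)) := by
          rw [e2, e3]
          ring
  exact le_of_mul_le_mul_left ((h9.trans h7).trans h13) hTβ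

end

end Run7.h563.DM
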