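import Pool.Agent.Q97.RB.Lin
import Pool.Agent.Y732.UP.SUBA

set_option autoImplicit false

/-!
# Derivatives at zeros and area means

For an entire function `F` the sum of `‖F' ρ‖ ^ β` over its distinct zeros in a box is at most
`C r ^ (-β - 2)` times the area integral of `‖F‖ ^ β` over a slightly larger box: the number of zeros near a
point is absorbed by Jensen's formula.
-/

namespace Run7.h563.DM

open Complex MeasureTheory Filter Topology Set Q97.RB MeromorphicOn Metric

noncomputable section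

theorem circ_nonneg {F : ℂ → ℂ} {β : ℝ} (c : ℂ) (r : ℝ) : 0 ≤ Real.circleAverage (fun z => ‖F z‖ ^ β) c r := by
  rw [Real.circleAverage_def]
  have : 0 ≤ ∫ θ in (0 : ℝ)..2 * Real.pi, (fun z => ‖F z‖ ^ β) (circleMap c r θ) :=
    intervalIntegral.integral_nonneg (by positivity) fun θ _ => by positivity
  exact smul_nonneg (by positivity) this

/-- the derivative at a zero and the mean over a circle -/
theorem deriv_le {F : ℂ → ℂ} (hF : Differentiable ℂ F) {ρ : ℂ} (h0 : F ρ = 0) {r β : ℝ} (hr : 0 < r)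
    (hβ : 0 < β) :
    ‖deriv F ρ‖ ^ β ≤ r ^ (-β) * Real.circleAverage (fun z => ‖F z‖ ^ β) ρ r := by
  have hh : Differentiable ℂ (dslope F ρ) := by
    rw [← differentiableOn_univ, Complex.differentiableOn_dslope univ_mem]
    exact hF.differentiableOn
  have h1 := jensen_ineq hh (c := ρ) hr hβ
  have h2 := NN_nonneg hh ρ hr
  have h3 : (1 : ℝ) ≤ Real.exp (β * NN (dslope F ρ) ρ r) := Real.one_le_exp (by positivity)
  rw [dslope_same] at h1
  have h4 : ‖deriv F ρ‖ ^ β ≤ Real.circleAverage (fun z => ‖dslope F ρ z‖ ^ β) ρ r := by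
    refine le_trans ?_ h1
    exact le_mul_of_one_le_right (by positivity) h3
  refine h4.trans (le_of_eq ?_)
  rw [← smul_eq_mul, ← Real.circleAverage_fun_smul]
  apply Real.circleAverage_congr_sphere
  intro z hz
  rw [mem_sphere, abs_of_pos hr, dist_eq_norm] at hz
  have hne : z ≠ ρ := by
    rintro rfl
    rw [sub_self, norm_zero] at hz
    exact hr.ne hz
  show ‖dslope F ρ z‖ ^ β = r ^ (-β) • ‖F z‖ ^ β
  rw [dslope_of_ne _ hne, slope_def_module, h0, sub_zero, norm_smul, norm_inv, hz, smul_eq_mul,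
    Real.mul_rpow (by positivity) (norm_nonneg _), Real.inv_rpow hr.le, Real.rpow_neg hr.le]

/-- distinct zeros near the centre make the counting function large -/
theorem NN_card {F : ℂ → ℂ} (hF : Differentiable ℂ F) {c : ℂ} (hc : F c ≠ 0) {δ r : ℝ} (hδ : 0 < δ)
    (hr : Real.exp 1 * δ ≤ r) (S : Finset ℂ) (hS : ∀ ρ ∈ S, F ρ = 0 ∧ ‖c - ρ‖ ≤ δ) :
    (S.card : ℝ) ≤ NN F c r := by
  classical
  have he : (1 : ℝ) ≤ Real.exp 1 := Real.one_le_exp zero_le_one
  have hδr : δ ≤ r := by nlinarith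
  have hr0 : 0 < r := by linarith
  have habs : |r| = r := abs_of_pos hr0
  set D := divisor F (closedBall c |r|) with hD
  have hfin : D.support.Finite :=
    Function.locallyFinsuppWithin.finiteSupport D (isCompact_closedBall _ _)
  set f : ℂ → ℝ := fun u => (D u : ℝ) * Real.log (r * ‖c - u‖⁻¹) with hf
  have hf0 : ∀ u, 0 ≤ f u := fun u => NN_term_nonneg hF c hr0 u
  have hfsupp : (Function.support f) ⊆ ↑hfin.toFinset := by
    intro u hu
    rw [Set.Finite.coe_toFinset, Function.mem_support]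
    intro h
    apply hu
    simp [hf, h]
  have hNN : NN F c r = ∑ u ∈ hfin.toFinset, f u := by
    unfold NN
    exact finsum_eq_sum_of_support_subset _ hfsupp
  have hA : AnalyticOnNhd ℂ F univ := fun z _ => hF.analyticAt z
  have hone : ∀ ρ ∈ S, 1 ≤ f ρ := by
    intro ρ hρ
    obtain ⟨h0, h1⟩ := hS ρ hρ
    have hmem : ρ ∈ closedBall c |r| := by
      rw [habs, mem_closedBall, dist_comm, dist_eq_norm]
      exact h1.trans hδr
    have hord : analyticOrderAt F ρ ≠ ⊤ := by
      intro h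
      rw [analyticOrderAt_eq_top] at h
      have h2 := hA.eq_of_eventuallyEq (g := 0) (fun z _ => analyticAt_const) (z₀ := ρ) h
      rw [h2] at hc
      exact hc rfl
    have hord0 : analyticOrderAt F ρ ≠ 0 := by
      rw [Ne, (hF.analyticAt ρ).analyticOrderAt_eq_zero]
      simpa using h0
    have hDρ : (1 : ℝ) ≤ (D ρ : ℝ) := by
      rw [hD, MeromorphicOn.AnalyticOnNhd.divisor_apply (hA.mono (subset_univ _)) hmem]
      obtain ⟨n, hn⟩ := ENat.ne_top_iff_exists.mp hord
      rw [← hn] at hord0 ⊢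
      have hn0 : n ≠ 0 := by
        rintro rfl
        exact hord0 rfl
      have h5 : (1 : ℝ) ≤ (n : ℝ) := by exact_mod_cast Nat.one_le_iff_ne_zero.mpr hn0
      simpa using h5
    have hcρ : 0 < ‖c - ρ‖ := by
      rw [norm_pos_iff, sub_ne_zero]
      rintro rfl
      exact hc h0
    have hlog : 1 ≤ Real.log (r * ‖c - ρ‖⁻¹) := by
      rw [Real.le_log_iff_exp_le (by positivity), ← div_eq_mul_inv, le_div_iff₀ hcρ]
      nlinarith [Real.exp_pos 1]
    calc (1 : ℝ) = 1 * 1 := by ring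
      _ ≤ (D ρ : ℝ) * Real.log (r * ‖c - ρ‖⁻¹) := mul_le_mul hDρ hlog zero_le_one (by linarith)
  have hSsub : S ⊆ hfin.toFinset := by
    intro ρ hρ
    apply hfsupp
    rw [Function.mem_support]
    have := hone ρ hρ
    linarith
  rw [hNN]
  calc (S.card : ℝ) = ∑ ρ ∈ S, (1 : ℝ) := by simp
    _ ≤ ∑ ρ ∈ S, f ρ := Finset.sum_le_sum hone
    _ ≤ ∑ u ∈ hfin.toFinset, f u := Finset.sum_le_sum_of_subset_of_nonneg hSsub fun u _ _ => hf0 u

/-- the number of zeros near `c` times `‖F c‖ ^ β` -/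
theorem card_mul_le {F : ℂ → ℂ} (hF : Differentiable ℂ F) {c : ℂ} {δ r β : ℝ} (hδ : 0 < δ) (hβ : 0 < β)
    (hr : Real.exp 1 * δ ≤ r) (S : Finset ℂ) (hS : ∀ ρ ∈ S, F ρ = 0 ∧ ‖c - ρ‖ ≤ δ) :
    (S.card : ℝ) * ‖F c‖ ^ β ≤ β⁻¹ * Real.circleAverage (fun z => ‖F z‖ ^ β) c r := by
  have hr0 : 0 < r := lt_of_lt_of_le (by positivity) hr
  rcases eq_or_ne (F c) 0 with hc | hc
  · rw [hc, norm_zero, Real.zero_rpow hβ.ne', mul_zero]
    exact mul_nonneg (by positivity) (circ_nonneg c r)
  · have h1 := NN_card hF hc hδ hr S hS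
    have h2 := jensen_ineq hF (c := c) hr0 hβ
    have h3 : β * (S.card : ℝ) ≤ Real.exp (β * NN F c r) := by
      have h4 := Real.add_one_le_exp (β * NN F c r)
      nlinarith
    have h5 : 0 ≤ ‖F c‖ ^ β := by positivity
    calc (S.card : ℝ) * ‖F c‖ ^ β = β⁻¹ * (‖F c‖ ^ β * (β * (S.card : ℝ))) := by field_simp
      _ ≤ β⁻¹ * (‖F c‖ ^ β * Real.exp (β * NN F c r)) := by gcongr
      _ ≤ _ := by gcongr

end

end Run7.h563.DM
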