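import Pool.Agent.Run7.h563.DM.A

set_option autoImplicit false

/-!
# Sums over zeros and area integrals
-/

namespace Run7.h563.DM

open Complex MeasureTheory Filter Topology Set Q97.RB MeromorphicOn Metric

noncomputable section

/-- `‖F‖ ^ β` as a function of two real variables -/
def uu (F : ℂ → ℂ) (β : ℝ) (p : ℝ × ℝ) : ℝ := ‖F ((p.1 : ℂ) + p.2 * I)‖ ^ β

theorem uu_cont {F : ℂ → ℂ} (hF : Differentiable ℂ F) {β : ℝ} (hβ : 0 < β) : Continuous (uu F β) := by
  have := hF.continuous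
  unfold uu
  refine Continuous.rpow_const ?_ fun p => Or.inr hβ.le
  fun_prop

theorem uu_nonneg (F : ℂ → ℂ) (β : ℝ) (p : ℝ × ℝ) : 0 ≤ uu F β p := by unfold uu; positivity

/-- the closed rectangle -/
def box (a b c d : ℝ) : Set (ℝ × ℝ) := Icc a b ×ˢ Icc c d

theorem box_meas (a b c d : ℝ) : MeasurableSet (box a b c d) := measurableSet_Icc.prod measurableSet_Icc

/-- iterated real integrals as a double integral -/
theorem lint_box {u : ℝ × ℝ → ℝ} (hu : Continuous u) (h0 : ∀ p, 0 ≤ u p) {a b c d : ℝ} (hab : a ≤ b)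
    (hcd : c ≤ d) : ENNReal.ofReal (∫ x in a..b, ∫ y in c..d, u (x, y)) =
      ∫⁻ p in box a b c d, ENNReal.ofReal (u p) := by
  have hin : Continuous (fun x : ℝ => ∫ y in c..d, u (x, y)) :=
    intervalIntegral.continuous_parametric_intervalIntegral_of_continuous' (by fun_prop) c d
  rw [intervalIntegral.integral_of_le hab, ← integral_Icc_eq_integral_Ioc,
    ofReal_integral_eq_lintegral_ofReal (hin.integrableOn_Icc)
      (Eventually.of_forall fun x => intervalIntegral.integral_nonneg hcd fun y _ => h0 _)]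
  have e1 : ∀ x : ℝ, ENNReal.ofReal (∫ y in c..d, u (x, y)) = ∫⁻ y in Icc c d, ENNReal.ofReal (u (x, y)) := by
    intro x
    have hx : Continuous (fun y : ℝ => u (x, y)) := by fun_prop
    rw [intervalIntegral.integral_of_le hcd, ← integral_Icc_eq_integral_Ioc,
      ofReal_integral_eq_lintegral_ofReal (hx.integrableOn_Icc) (Eventually.of_forall fun y => h0 _)]
  simp_rw [e1]
  unfold box
  rw [Measure.volume_eq_prod, ← Measure.prod_restrict, lintegral_prod _ (by fun_prop)]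

/-- the derivative at a zero and the integral over a square -/
theorem deriv_sq {F : ℂ → ℂ} (hF : Differentiable ℂ F) {ρ : ℂ} (h0 : F ρ = 0) {r β : ℝ} (hr : 0 < r)
    (hβ : 0 < β) :
    ENNReal.ofReal (‖deriv F ρ‖ ^ β) ≤ ENNReal.ofReal (r ^ (-β) / (Real.pi * r ^ 2)) *
      ∫⁻ p in box (ρ.re - 2 * r) (ρ.re + 2 * r) (ρ.im - 2 * r) (ρ.im + 2 * r), ENNReal.ofReal (uu F β p) := by
  have huc := uu_cont hF hβ
  have hu0 := uu_nonneg F β
  set I0 : ℝ → ℝ → ℝ → ℝ := fun x c d => ∫ y in c..d, uu F β (x, y) with hI0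
  have hI0c : ∀ c d : ℝ, Continuous (fun x => I0 x c d) := fun c d =>
    intervalIntegral.continuous_parametric_intervalIntegral_of_continuous' (by fun_prop) c d
  have hI0n : ∀ x c d : ℝ, c ≤ d → 0 ≤ I0 x c d := fun x c d h =>
    intervalIntegral.integral_nonneg h fun y _ => hu0 _
  set A : ℝ := ∫ x in (ρ.re - 2 * r)..(ρ.re + 2 * r), I0 x (ρ.im - 2 * r) (ρ.im + 2 * r) with hA
  have hz : ∀ z ∈ sphere ρ |r|, ‖F z‖ ^ β ≤ 1 / (Real.pi * r ^ 2) * A := by
    intro z hz
    rw [mem_sphere, abs_of_pos hr, dist_eq_norm] at hz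
    have h1 := Pool.Agent.Y732.UP.t_SUBA F z r β hr hβ (fun w _ => hF.analyticAt w)
    refine h1.trans ?_
    have hre : |z.re - ρ.re| ≤ r := by
      rw [← Complex.sub_re, ← hz]; exact Complex.abs_re_le_norm _
    have him : |z.im - ρ.im| ≤ r := by
      rw [← Complex.sub_im, ← hz]; exact Complex.abs_im_le_norm _
    obtain ⟨hr1, hr2⟩ := abs_le.mp hre
    obtain ⟨hi1, hi2⟩ := abs_le.mp him
    refine mul_le_mul_of_nonneg_left ?_ (by positivity)
    have e1 : ∀ x : ℝ, ∫ y in (-r)..r, ‖F (z + x + y * I)‖ ^ β = I0 (z.re + x) (z.im + -r) (z.im + r) := by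
      intro x
      rw [hI0]
      simp only
      rw [← intervalIntegral.integral_comp_add_left (fun y => uu F β (z.re + x, y)) z.im]
      apply intervalIntegral.integral_congr
      intro y _
      simp only [uu]
      congr 3
      apply Complex.ext <;> simp
    simp_rw [e1]
    rw [intervalIntegral.integral_comp_add_left (fun x => I0 x (z.im + -r) (z.im + r)) z.re]
    calc ∫ x in (z.re + -r)..(z.re + r), I0 x (z.im + -r) (z.im + r)
        ≤ ∫ x in (z.re + -r)..(z.re + r), I0 x (ρ.im - 2 * r) (ρ.im + 2 * r) := by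
          apply intervalIntegral.integral_mono_on (by linarith) ((hI0c _ _).intervalIntegrable _ _)
            ((hI0c _ _).intervalIntegrable _ _)
          intro x _
          have hx : Continuous (fun y : ℝ => uu F β (x, y)) := by fun_prop
          exact intervalIntegral.integral_mono_interval (by linarith) (by linarith) (by linarith)
            (Eventually.of_forall fun y => hu0 _) (hx.intervalIntegrable _ _)
      _ ≤ A := by
          apply intervalIntegral.integral_mono_interval (by linarith) (by linarith) (by linarith)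
            (Eventually.of_forall fun x => hI0n x _ _ (by linarith)) ((hI0c _ _).intervalIntegrable _ _)
  have hci : CircleIntegrable (fun z => ‖F z‖ ^ β) ρ r := by
    refine Continuous.intervalIntegrable ?_ _ _
    exact (hF.continuous.norm.rpow_const fun z => Or.inr hβ.le).comp (continuous_circleMap ρ r)
  have h2 := Real.circleAverage_mono_on_of_le_circle hci hz
  have h3 := (deriv_le hF h0 hr hβ).trans (mul_le_mul_of_nonneg_left h2 (by positivity))
  rw [← lint_box huc hu0 (by linarith) (by linarith), ← ENNReal.ofReal_mul (by positivity)]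
  apply ENNReal.ofReal_le_ofReal
  refine h3.trans (le_of_eq ?_)
  rw [hA]
  ring

/-- the integral of the circle averages over a box -/
theorem circ_box {F : ℂ → ℂ} (hF : Differentiable ℂ F) {β R : ℝ} (hβ : 0 < β) (hR : 0 < R) (a b c d : ℝ) :
    ∫⁻ p in box a b c d, ENNReal.ofReal (Real.circleAverage (fun z => ‖F z‖ ^ β) ((p.1 : ℂ) + p.2 * I) R) ≤
      ∫⁻ p in box (a - R) (b + R) (c - R) (d + R), ENNReal.ofReal (uu F β p) := by
  have hπ := Real.pi_pos
  have huc := uu_cont hF hβ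
  have hu0 := uu_nonneg F β
  have hval : ∀ (p : ℝ × ℝ) (θ : ℝ), ‖F (circleMap ((p.1 : ℂ) + p.2 * I) R θ)‖ ^ β =
      uu F β (p + (R * Real.cos θ, R * Real.sin θ)) := by
    intro p θ
    simp only [uu, Prod.fst_add, Prod.snd_add]
    congr 3
    rw [circleMap, Complex.exp_mul_I]
    push_cast
    ring
  have e1 : ∀ p : ℝ × ℝ, ENNReal.ofReal (Real.circleAverage (fun z => ‖F z‖ ^ β) ((p.1 : ℂ) + p.2 * I) R) =
      ENNReal.ofReal ((2 * Real.pi)⁻¹) * ∫⁻ θ in Ioc 0 (2 * Real.pi),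
        ENNReal.ofReal (uu F β (p + (R * Real.cos θ, R * Real.sin θ))) := by
    intro p
    have hcy : Continuous (fun θ : ℝ => uu F β (p + (R * Real.cos θ, R * Real.sin θ))) := by fun_prop
    rw [Real.circleAverage_def, smul_eq_mul, ENNReal.ofReal_mul (by positivity),
      intervalIntegral.integral_of_le (by positivity)]
    simp only [hval]
    rw [ofReal_integral_eq_lintegral_ofReal (hcy.integrableOn_Ioc) (Eventually.of_forall fun θ => hu0 _)]
  simp_rw [e1]
  have hm : Measurable (fun q : (ℝ × ℝ) × ℝ =>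
      ENNReal.ofReal (uu F β (q.1 + (R * Real.cos q.2, R * Real.sin q.2)))) := by
    have : Continuous (fun q : (ℝ × ℝ) × ℝ => uu F β (q.1 + (R * Real.cos q.2, R * Real.sin q.2))) := by
      fun_prop
    exact this.measurable.ennreal_ofReal
  rw [lintegral_const_mul _ (Measurable.lintegral_prod_right hm), lintegral_lintegral_swap hm.aemeasurable]
  set T := ∫⁻ p in box (a - R) (b + R) (c - R) (d + R), ENNReal.ofReal (uu F β p) with hT
  have h2 : ∀ θ : ℝ, ∫⁻ p in box a b c d, ENNReal.ofReal (uu F β (p + (R * Real.cos θ, R * Real.sin θ))) ≤ T := by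
    intro θ
    have hc1 := Real.neg_one_le_cos θ
    have hc2 := Real.cos_le_one θ
    have hs1 := Real.neg_one_le_sin θ
    have hs2 := Real.sin_le_one θ
    set v : ℝ × ℝ := (R * Real.cos θ, R * Real.sin θ) with hv
    rw [hT, ← lintegral_indicator (box_meas _ _ _ _), ← lintegral_indicator (box_meas _ _ _ _),
      ← lintegral_add_right_eq_self (fun p => (box (a - R) (b + R) (c - R) (d + R)).indicator
        (fun p => ENNReal.ofReal (uu F β p)) p) v]
    refine lintegral_mono fun p => ?_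
    by_cases hp : p ∈ box a b c d
    · have hp2 : p + v ∈ box (a - R) (b + R) (c - R) (d + R) := by
        obtain ⟨⟨h3, h4⟩, h5, h6⟩ := hp
        refine ⟨⟨?_, ?_⟩, ?_, ?_⟩ <;> simp only [hv, Prod.fst_add, Prod.snd_add] <;> nlinarith
      rw [indicator_of_mem hp, indicator_of_mem hp2]
    · rw [indicator_of_notMem hp]
      exact zero_le
  calc ENNReal.ofReal ((2 * Real.pi)⁻¹) * ∫⁻ θ in Ioc 0 (2 * Real.pi),
        ∫⁻ p in box a b c d, ENNReal.ofReal (uu F β (p + (R * Real.cos θ, R * Real.sin θ)))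
      ≤ ENNReal.ofReal ((2 * Real.pi)⁻¹) * ∫⁻ _ in Ioc 0 (2 * Real.pi), T := by
        gcongr with θ
        exact h2 θ
    _ = T := by
        rw [setLIntegral_const, Real.volume_Ioc, sub_zero, mul_comm T, ← mul_assoc,
          ← ENNReal.ofReal_mul (by positivity), inv_mul_cancel₀ (by positivity), ENNReal.ofReal_one, one_mul]

/-- the sum over the zeros in a box -/
theorem core {F : ℂ → ℂ} (hF : Differentiable ℂ F) {β r : ℝ} (hβ : 0 < β) (hr : 0 < r) (S : Finset ℂ)
    (hS : ∀ ρ ∈ S, F ρ = 0) {a b c d : ℝ}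
    (hb : ∀ ρ ∈ S, a + 2 * r ≤ ρ.re ∧ ρ.re ≤ b - 2 * r ∧ c + 2 * r ≤ ρ.im ∧ ρ.im ≤ d - 2 * r) :
    ENNReal.ofReal (∑ ρ ∈ S, ‖deriv F ρ‖ ^ β) ≤ ENNReal.ofReal (r ^ (-β) / (Real.pi * r ^ 2) * β⁻¹) *
      ∫⁻ p in box (a - 9 * r) (b + 9 * r) (c - 9 * r) (d + 9 * r), ENNReal.ofReal (uu F β p) := by
  classical
  have huc := uu_cont hF hβ
  set Q : ℂ → Set (ℝ × ℝ) := fun ρ => box (ρ.re - 2 * r) (ρ.re + 2 * r) (ρ.im - 2 * r) (ρ.im + 2 * r) with hQ
  set U : ℝ × ℝ → ENNReal := fun p => ENNReal.ofReal (uu F β p) with hU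
  have hUm : Measurable U := huc.measurable.ennreal_ofReal
  set K : ENNReal := ENNReal.ofReal (r ^ (-β) / (Real.pi * r ^ 2)) with hK
  have h1 : ENNReal.ofReal (∑ ρ ∈ S, ‖deriv F ρ‖ ^ β) ≤ K * ∑ ρ ∈ S, ∫⁻ p in Q ρ, U p := by
    rw [ENNReal.ofReal_sum_of_nonneg fun ρ _ => by positivity, Finset.mul_sum]
    exact Finset.sum_le_sum fun ρ hρ => deriv_sq hF (hS ρ hρ) hr hβ
  have h2 : ∑ ρ ∈ S, ∫⁻ p in Q ρ, U p = ∫⁻ p, ∑ ρ ∈ S, (Q ρ).indicator U p := by
    rw [lintegral_finsetSum _ fun ρ _ => hUm.indicator (box_meas _ _ _ _)]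
    exact Finset.sum_congr rfl fun ρ _ => (lintegral_indicator (box_meas _ _ _ _) _).symm
  have h3 : ∀ p : ℝ × ℝ, ∑ ρ ∈ S, (Q ρ).indicator U p ≤ (box a b c d).indicator (fun p =>
      ENNReal.ofReal (β⁻¹) * ENNReal.ofReal (Real.circleAverage (fun z => ‖F z‖ ^ β)
        ((p.1 : ℂ) + p.2 * I) (9 * r))) p := by
    intro p
    have e1 : ∑ ρ ∈ S, (Q ρ).indicator U p = ((S.filter fun ρ => p ∈ Q ρ).card : ENNReal) * U p := by
      rw [← nsmul_eq_mul, ← Finset.sum_const, Finset.sum_filter]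
      refine Finset.sum_congr rfl fun ρ _ => ?_
      by_cases hp : p ∈ Q ρ
      · rw [indicator_of_mem hp, if_pos hp]
      · rw [indicator_of_notMem hp, if_neg hp]
    rw [e1]
    rcases Finset.eq_empty_or_nonempty (S.filter fun ρ => p ∈ Q ρ) with he | ⟨ρ0, hρ0⟩
    · rw [he]
      simp
    · obtain ⟨hρS, hρQ⟩ := Finset.mem_filter.mp hρ0
      obtain ⟨g1, g2, g3, g4⟩ := hb ρ0 hρS
      have hp : p ∈ box a b c d := by
        obtain ⟨⟨h3, h4⟩, h5, h6⟩ := hρQ
        exact ⟨⟨by linarith, by linarith⟩, by linarith, by linarith⟩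
      rw [indicator_of_mem hp]
      have h4 := card_mul_le hF (c := (p.1 : ℂ) + p.2 * I) (δ := 3 * r) (r := 9 * r) (β := β) (by positivity) hβ
        (by nlinarith [Real.exp_one_lt_d9]) (S.filter fun ρ => p ∈ Q ρ) (fun ρ hρ => by
          obtain ⟨hρS, hρQ⟩ := Finset.mem_filter.mp hρ
          refine ⟨hS ρ hρS, ?_⟩
          obtain ⟨⟨h3, h4⟩, h5, h6⟩ := hρQ
          have e2 : (p.1 : ℂ) + p.2 * I - ρ = ((p.1 - ρ.re : ℝ) : ℂ) + ((p.2 - ρ.im : ℝ) : ℂ) * I := by
            apply Complex.ext <;> simp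
          rw [e2, Complex.norm_add_mul_I, Real.sqrt_le_left (by positivity)]
          have a1 : |p.1 - ρ.re| ≤ 2 * r := abs_le.mpr ⟨by linarith, by linarith⟩
          have a2 : |p.2 - ρ.im| ≤ 2 * r := abs_le.mpr ⟨by linarith, by linarith⟩
          have b1 : (p.1 - ρ.re) ^ 2 ≤ (2 * r) ^ 2 := sq_le_sq' (abs_le.mp a1).1 (abs_le.mp a1).2
          have b2 : (p.2 - ρ.im) ^ 2 ≤ (2 * r) ^ 2 := sq_le_sq' (abs_le.mp a2).1 (abs_le.mp a2).2
          nlinarith [sq_nonneg r])
      rw [← ENNReal.ofReal_mul (by positivity), ← ENNReal.ofReal_natCast, hU]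
      simp only
      rw [← ENNReal.ofReal_mul (by positivity)]
      exact ENNReal.ofReal_le_ofReal h4
  calc ENNReal.ofReal (∑ ρ ∈ S, ‖deriv F ρ‖ ^ β) ≤ K * ∫⁻ p, ∑ ρ ∈ S, (Q ρ).indicator U p := by
        rw [← h2]; exact h1
    _ ≤ K * ∫⁻ p, (box a b c d).indicator (fun p =>
      ENNReal.ofReal (β⁻¹) * ENNReal.ofReal (Real.circleAverage (fun z => ‖F z‖ ^ β)
        ((p.1 : ℂ) + p.2 * I) (9 * r))) p := by
        gcongr with p
        exact h3 p
    _ = K * (ENNReal.ofReal (β⁻¹) * ∫⁻ p in box a b c d, ENNReal.ofReal (Real.circleAverage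
        (fun z => ‖F z‖ ^ β) ((p.1 : ℂ) + p.2 * I) (9 * r))) := by
        rw [lintegral_indicator (box_meas _ _ _ _), lintegral_const_mul' _ _ ENNReal.ofReal_ne_top]
    _ ≤ K * (ENNReal.ofReal (β⁻¹) * ∫⁻ p in box (a - 9 * r) (b + 9 * r) (c - 9 * r) (d + 9 * r), U p) := by
        exact mul_le_mul' le_rfl (mul_le_mul' le_rfl (circ_box hF hβ (by positivity) a b c d))
    _ = _ := by
        rw [← mul_assoc, hK, ← ENNReal.ofReal_mul (by positivity)]

end

end Run7.h563.DM
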