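import Pool.Agent.Run7.h563.DM.B
import Pool.Agent.Q97.MM.Zg

set_option autoImplicit false

/-!
# The zeros of zeta near the critical line, one dyadic block
-/

namespace Run7.h563.DM

open Complex MeasureTheory Filter Topology Set Q97.RB Q97.MM MeromorphicOn Metric Pool.Agent.Y745.UP

noncomputable section

theorem deriv_Z1 {ρ : ℂ} (h1 : ρ ≠ 1) (h0 : riemannZeta ρ = 0) :
    deriv Z1 ρ = (ρ - 1) * deriv riemannZeta ρ := by
  have h2 : Z1 =ᶠ[𝓝 ρ] fun s => (s - 1) * riemannZeta s := by
    filter_upwards [isOpen_ne.mem_nhds h1] with s hs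
    exact Z1_of_ne hs
  rw [h2.deriv_eq, deriv_fun_mul (by fun_prop) (differentiableAt_riemannZeta h1), h0]
  simp

/-- one block -/
theorem block (hSTRIP : P_STRIP) {α A : ℝ} (hα : 0 < α) (hα2 : α ≤ 2) (hA : 0 ≤ A) :
    ∃ C T₀ : ℝ, 0 < C ∧ 3 ≤ T₀ ∧ ∀ T : ℝ, T₀ ≤ T → ∀ S : Finset ℂ,
      (∀ ρ ∈ S, riemannZeta ρ = 0 ∧ |ρ.re - 1 / 2| ≤ A / Real.log T ∧ T ≤ ρ.im ∧ ρ.im ≤ 2 * T) →
      ∑ ρ ∈ S, ‖deriv riemannZeta ρ‖ ^ (2 * α) ≤ C * (T * Real.log T ^ ((α + 1) ^ 2)) := by
  obtain ⟨C1, hC1, hev⟩ := hSTRIP α (A + 11) hα hα2 (by linarith)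
  obtain ⟨T1, hT1⟩ := eventually_atTop.mp hev
  have hπ := Real.pi_pos
  set β : ℝ := 2 * α with hβd
  have hβ : 0 < β := by positivity
  refine ⟨4 ^ β * (2 * (A + 11)) * C1 / (Real.pi * β), max (max T1 30) (Real.exp (2 * (A + 11))), by positivity,
    ?_, fun T hT S hS => ?_⟩
  · exact le_trans (by norm_num) ((le_max_right T1 30).trans (le_max_left _ _))
  have hTT1 : T1 ≤ T := (le_max_left _ _).trans ((le_max_left _ _).trans hT)
  have hT30 : 30 ≤ T := (le_max_right _ _).trans ((le_max_left _ _).trans hT)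
  have hTe : Real.exp (2 * (A + 11)) ≤ T := (le_max_right _ _).trans hT
  have hT0 : 0 < T := by linarith
  have hL : 2 * (A + 11) ≤ Real.log T := by
    rw [Real.le_log_iff_exp_le hT0]; exact hTe
  set L := Real.log T with hLd
  have hL0 : 0 < L := by linarith
  set r : ℝ := 1 / L with hr
  have hr0 : 0 < r := by positivity
  have hr1 : (A + 11) * r ≤ 1 / 2 := by
    rw [hr, mul_one_div, div_le_iff₀ hL0]
    linarith
  have hr2 : 11 * r ≤ 1 := by nlinarith
  have hAr : A / L = A * r := by rw [hr]; ring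
  -- the strip bound
  have hstrip := hT1 T hTT1
  have hne1 : ∀ ρ ∈ S, ρ ≠ 1 := by
    intro ρ hρ h1
    have := (hS ρ hρ).2.2.1
    rw [h1] at this
    simp at this
    linarith
  have hcore := core Z1_differentiable hβ hr0 S (fun ρ hρ => by
    rw [Z1_of_ne (hne1 ρ hρ), (hS ρ hρ).1, mul_zero])
    (a := 1 / 2 - (A + 2) * r) (b := 1 / 2 + (A + 2) * r) (c := T - 2 * r) (d := 2 * T + 2 * r) (fun ρ hρ => by
      obtain ⟨-, h2, h3, h4⟩ := hS ρ hρ
      rw [hAr] at h2
      obtain ⟨h5, h6⟩ := abs_le.mp h2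
      refine ⟨?_, ?_, ?_, ?_⟩ <;> linarith)
  have ea : 1 / 2 - (A + 2) * r - 9 * r = 1 / 2 - (A + 11) * r := by ring
  have eb : 1 / 2 + (A + 2) * r + 9 * r = 1 / 2 + (A + 11) * r := by ring
  have ec : T - 2 * r - 9 * r = T - 11 * r := by ring
  have ed : 2 * T + 2 * r + 9 * r = 2 * T + 11 * r := by ring
  rw [ea, eb, ec, ed] at hcore
  -- the integral over the box
  set M : ℝ := (4 * T) ^ β * (C1 * (T * L ^ (α ^ 2))) with hM
  have hM0 : 0 ≤ M := by positivity
  have hbox : ∫⁻ p in box (1 / 2 - (A + 11) * r) (1 / 2 + (A + 11) * r) (T - 11 * r) (2 * T + 11 * r),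
      ENNReal.ofReal (uu Z1 β p) ≤ ENNReal.ofReal (2 * (A + 11) * r * M) := by
    have hcont := uu_cont Z1_differentiable hβ
    unfold box
    rw [Measure.volume_eq_prod, ← Measure.prod_restrict, lintegral_prod _ (by fun_prop)]
    calc ∫⁻ x in Icc (1 / 2 - (A + 11) * r) (1 / 2 + (A + 11) * r), ∫⁻ y in Icc (T - 11 * r) (2 * T + 11 * r),
          ENNReal.ofReal (uu Z1 β (x, y))
        ≤ ∫⁻ _ in Icc (1 / 2 - (A + 11) * r) (1 / 2 + (A + 11) * r), ENNReal.ofReal M := by
          refine setLIntegral_mono measurable_const fun x hx => ?_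
          obtain ⟨hx1, hx2⟩ := hx
          have hxx : |x - 1 / 2| ≤ (A + 11) / Real.log T := by
            rw [← hLd, show (A + 11) / L = (A + 11) * r by rw [hr]; ring]
            exact abs_le.mpr ⟨by linarith, by linarith⟩
          have hx3 : |x - 1| ≤ 1 := abs_le.mpr ⟨by linarith, by linarith⟩
          have h5 := hstrip (x - 1 / 2) hxx
          have e5 : ∀ t : ℝ, (((1 / 2 + (x - 1 / 2) : ℝ) : ℂ) + t * I) = (x : ℂ) + t * I := by
            intro t
            congr 2
            ring
          simp_rw [e5] at h5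
          have hzc : ContinuousOn (fun t : ℝ => ‖riemannZeta ((x : ℂ) + t * I)‖ ^ β) (Icc (T / 2) (3 * T)) := by
            intro t ht
            have ht0 : 0 < t := by linarith [ht.1]
            have hne : ((x : ℂ) + t * I) ≠ 1 := by
              intro h
              have := congrArg Complex.im h
              simp at this
              linarith
            have h6 := (differentiableAt_riemannZeta hne).continuousAt
            have h7 : ContinuousAt (fun t : ℝ => riemannZeta ((x : ℂ) + t * I)) t :=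
              ContinuousAt.comp (f := fun t : ℝ => (x : ℂ) + t * I) h6 (by fun_prop)
            exact (h7.norm.rpow_const (Or.inr hβ.le)).continuousWithinAt
          calc ∫⁻ y in Icc (T - 11 * r) (2 * T + 11 * r), ENNReal.ofReal (uu Z1 β (x, y))
              ≤ ∫⁻ y in Icc (T - 11 * r) (2 * T + 11 * r),
                  ENNReal.ofReal ((4 * T) ^ β * ‖riemannZeta ((x : ℂ) + y * I)‖ ^ β) := by
                refine setLIntegral_mono_ae' measurableSet_Icc (Eventually.of_forall fun y hy => ?_)
                apply ENNReal.ofReal_le_ofReal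
                obtain ⟨hy1, hy2⟩ := hy
                have hy0 : 0 < y := by linarith
                have hne : ((x : ℂ) + y * I) ≠ 1 := by
                  intro h
                  have := congrArg Complex.im h
                  simp at this
                  linarith
                simp only [uu]
                rw [Z1_of_ne hne, norm_mul, Real.mul_rpow (norm_nonneg _) (norm_nonneg _)]
                gcongr
                have e6 : (x : ℂ) + y * I - 1 = ((x - 1 : ℝ) : ℂ) + y * I := by push_cast; ring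
                rw [e6]
                refine (norm_add_le _ _).trans ?_
                rw [Complex.norm_real, norm_mul, Complex.norm_real, Complex.norm_I, mul_one, Real.norm_eq_abs,
                  Real.norm_eq_abs, abs_of_pos hy0]
                linarith
            _ ≤ ∫⁻ y in Icc (T / 2) (3 * T),
                  ENNReal.ofReal ((4 * T) ^ β * ‖riemannZeta ((x : ℂ) + y * I)‖ ^ β) := by
                apply lintegral_mono_set
                exact Icc_subset_Icc (by linarith) (by linarith)
            _ = ENNReal.ofReal (∫ y in Icc (T / 2) (3 * T), (4 * T) ^ β * ‖riemannZeta ((x : ℂ) + y * I)‖ ^ β) := by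
                rw [ofReal_integral_eq_lintegral_ofReal]
                · exact (continuousOn_const.mul hzc).integrableOn_Icc
                · exact Eventually.of_forall fun y => by positivity
            _ ≤ ENNReal.ofReal M := by
                apply ENNReal.ofReal_le_ofReal
                rw [integral_const_mul, hM]
                refine mul_le_mul_of_nonneg_left ?_ (by positivity)
                rw [integral_Icc_eq_integral_Ioc, ← intervalIntegral.integral_of_le (by linarith)]
                exact h5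
      _ = ENNReal.ofReal (2 * (A + 11) * r * M) := by
          rw [setLIntegral_const, Real.volume_Icc, ← ENNReal.ofReal_mul hM0]
          congr 1
          ring
  have h7 : ∑ ρ ∈ S, ‖deriv Z1 ρ‖ ^ β ≤ r ^ (-β) / (Real.pi * r ^ 2) * β⁻¹ * (2 * (A + 11) * r * M) := by
    have h8 := hcore.trans (mul_le_mul' le_rfl hbox)
    rw [← ENNReal.ofReal_mul (by positivity)] at h8
    exact (ENNReal.ofReal_le_ofReal_iff (by positivity)).mp h8
  have h9 : T ^ β * ∑ ρ ∈ S, ‖deriv riemannZeta ρ‖ ^ β ≤ ∑ ρ ∈ S, ‖deriv Z1 ρ‖ ^ β := by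
    rw [Finset.mul_sum]
    refine Finset.sum_le_sum fun ρ hρ => ?_
    obtain ⟨h0, -, h3, -⟩ := hS ρ hρ
    rw [deriv_Z1 (hne1 ρ hρ) h0, norm_mul, Real.mul_rpow (norm_nonneg _) (norm_nonneg _)]
    gcongr
    refine le_trans ?_ (Complex.abs_im_le_norm _)
    rw [Complex.sub_im, Complex.one_im, sub_zero]
    exact h3.trans (le_abs_self _)
  have hTβ : 0 < T ^ β := by positivity
  have h10 := h9.trans h7
  have e1 : r ^ (-β) = L ^ β := by
    rw [hr, one_div, Real.inv_rpow hL0.le, Real.rpow_neg hL0.le, inv_inv]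
  have e2 : (4 * T) ^ β = 4 ^ β * T ^ β := Real.mul_rpow (by norm_num) hT0.le
  have e3 : L ^ ((α + 1) ^ 2) = L ^ β * L ^ (α ^ 2) * L := by
    have : (α + 1) ^ 2 = β + α ^ 2 + 1 := by rw [hβd]; ring
    rw [this, Real.rpow_add hL0, Real.rpow_add hL0, Real.rpow_one]
  have e4 : r ^ (-β) / (Real.pi * r ^ 2) * β⁻¹ * (2 * (A + 11) * r * M) =
      T ^ β * (4 ^ β * (2 * (A + 11)) * C1 / (Real.pi * β) * (T * L ^ ((α + 1) ^ 2))) := by
    rw [e1, hM, e2, e3, hr]
    field_simp
  rw [e4] at h10
  exact le_of_mul_le_mul_left h10 hTβ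

end

end Run7.h563.DM
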