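import Pool.Agent.Run7.h563.DM.C

set_option autoImplicit false

/-!
# From the dyadic blocks to `(0, T]`
-/

namespace Run7.h563.DM

open Complex MeasureTheory Filter Topology Set Q97.RB Q97.MM MeromorphicOn Metric Pool.Agent.Y745.UP

noncomputable section

/-- the zeros of an entire function which does not vanish identically, in a closed disc -/
theorem zeros_finite {F : ℂ → ℂ} (hF : Differentiable ℂ F) (h0 : F ≠ 0) (c : ℂ) (R : ℝ) :
    {z : ℂ | z ∈ closedBall c R ∧ F z = 0}.Finite := by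
  set D := divisor F (closedBall c R) with hD
  have hfin : D.support.Finite :=
    Function.locallyFinsuppWithin.finiteSupport D (isCompact_closedBall _ _)
  have hA : AnalyticOnNhd ℂ F univ := fun z _ => hF.analyticAt z
  refine hfin.subset ?_
  rintro ρ ⟨hmem, hρ⟩
  have hord : analyticOrderAt F ρ ≠ ⊤ := by
    intro h
    rw [analyticOrderAt_eq_top] at h
    exact h0 (hA.eq_of_eventuallyEq (g := 0) (fun z _ => analyticAt_const) (z₀ := ρ) h)
  have hord0 : analyticOrderAt F ρ ≠ 0 := by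
    rw [Ne, (hF.analyticAt ρ).analyticOrderAt_eq_zero]
    simpa using hρ
  rw [Function.mem_support, hD, MeromorphicOn.AnalyticOnNhd.divisor_apply (hA.mono (subset_univ _)) hmem]
  obtain ⟨n, hn⟩ := ENat.ne_top_iff_exists.mp hord
  rw [← hn] at hord0 ⊢
  have hn0 : n ≠ 0 := by
    rintro rfl
    exact hord0 rfl
  simpa using hn0

theorem Z1_ne : Z1 ≠ 0 := by
  intro h
  have := congrFun h 1
  simp [Z1] at this

/-- the zeros of zeta in the open critical strip with `|Re s - 1/2| ≤ w` and ordinate in `(0, U]` -/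
def zs (w U : ℝ) : Set ℂ :=
  {s : ℂ | riemannZeta s = 0 ∧ 0 < s.re ∧ s.re < 1 ∧ 0 < s.im ∧ s.im ≤ U ∧ |s.re - 1 / 2| ≤ w}

theorem zs_finite (w U : ℝ) : (zs w U).Finite := by
  refine (zeros_finite Z1_differentiable Z1_ne 0 (1 + |U|)).subset ?_
  rintro s ⟨h0, h1, h2, h3, h4, -⟩
  refine ⟨?_, ?_⟩
  · rw [mem_closedBall, dist_zero_right]
    refine (Complex.norm_le_abs_re_add_abs_im s).trans ?_
    rw [abs_of_pos h1, abs_of_pos h3]
    linarith [le_abs_self U]
  · have hne : s ≠ 1 := by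
      rintro rfl
      simp at h3
    rw [Z1_of_ne hne, h0, mul_zero]

theorem finite_total (hSTRIP : P_STRIP) {α A : ℝ} (hα : 0 < α) (hα2 : α ≤ 2) (hA : 0 ≤ A) :
    ∃ C T₀ : ℝ, 0 < C ∧ 3 ≤ T₀ ∧ ∀ T : ℝ, T₀ ≤ T → ∀ S : Finset ℂ, (∀ ρ ∈ S, ρ ∈ zs (A / Real.log T) T) →
      ∑ ρ ∈ S, ‖deriv riemannZeta ρ‖ ^ (2 * α) ≤ C * (T * Real.log T ^ ((α + 1) ^ 2)) := by
  classical
  obtain ⟨C, T₀, hC, hT₀, hB⟩ := block hSTRIP hα hα2 hA
  set e : ℝ := (α + 1) ^ 2 with he
  have he0 : 0 < e := by positivity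
  set Z0 : Finset ℂ := (zs_finite 1 (2 * T₀)).toFinset with hZ0
  set C0 : ℝ := ∑ ρ ∈ Z0, ‖deriv riemannZeta ρ‖ ^ (2 * α) with hC0
  have hC00 : 0 ≤ C0 := Finset.sum_nonneg fun ρ _ => by positivity
  -- the induction
  have key : ∀ n : ℕ, ∀ w U : ℝ, T₀ ≤ U → U < 2 ^ n * T₀ → 0 ≤ w → w ≤ 1 → w ≤ A / Real.log U →
      ∀ S : Finset ℂ, (∀ ρ ∈ S, ρ ∈ zs w U) →
      ∑ ρ ∈ S, ‖deriv riemannZeta ρ‖ ^ (2 * α) ≤ C0 + C * (U * Real.log U ^ e) := by
    intro n
    induction n with
    | zero =>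
      intro w U h1 h2
      simp at h2
      linarith
    | succ n ih =>
      intro w U h1 h2 hw0 hw1 hw S hS
      have hU0 : 0 < U := by linarith
      have hlogU : 0 < Real.log U := Real.log_pos (by linarith)
      rcases le_or_gt U (2 * T₀) with h3 | h3
      · have h4 : ∑ ρ ∈ S, ‖deriv riemannZeta ρ‖ ^ (2 * α) ≤ C0 := by
          refine Finset.sum_le_sum_of_subset_of_nonneg ?_ fun ρ _ _ => by positivity
          intro ρ hρ
          rw [hZ0, Set.Finite.mem_toFinset]
          obtain ⟨a1, a2, a3, a4, a5, a6⟩ := hS ρ hρ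
          exact ⟨a1, a2, a3, a4, a5.trans h3, a6.trans hw1⟩
        have h5 : 0 ≤ C * (U * Real.log U ^ e) := by positivity
        linarith
      · have hV : T₀ ≤ U / 2 := by linarith
        have hV0 : 0 < U / 2 := by linarith
        have hlogV : 0 < Real.log (U / 2) := Real.log_pos (by linarith)
        have hlog : Real.log (U / 2) ≤ Real.log U := Real.log_le_log hV0 (by linarith)
        have hw' : w ≤ A / Real.log (U / 2) := by
          refine hw.trans ?_
          gcongr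
        have hsplit := Finset.sum_filter_add_sum_filter_not S (fun ρ : ℂ => ρ.im ≤ U / 2)
          (fun ρ => ‖deriv riemannZeta ρ‖ ^ (2 * α))
        have hlow := ih w (U / 2) hV (by rw [pow_succ] at h2; linarith) hw0 hw1 hw'
          (S.filter fun ρ : ℂ => ρ.im ≤ U / 2) (fun ρ hρ => by
            obtain ⟨h6, h7⟩ := Finset.mem_filter.mp hρ
            obtain ⟨a1, a2, a3, a4, a5, a6⟩ := hS ρ h6
            exact ⟨a1, a2, a3, a4, h7, a6⟩)
        have hhigh := hB (U / 2) hV (S.filter fun ρ : ℂ => ¬ ρ.im ≤ U / 2) (fun ρ hρ => by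
          obtain ⟨h6, h7⟩ := Finset.mem_filter.mp hρ
          obtain ⟨a1, a2, a3, a4, a5, a6⟩ := hS ρ h6
          exact ⟨a1, a6.trans hw', (not_le.mp h7).le, by linarith⟩)
        have hmono : U / 2 * Real.log (U / 2) ^ e ≤ U / 2 * Real.log U ^ e := by
          gcongr
        rw [← hsplit]
        have h8 : C * (U / 2 * Real.log (U / 2) ^ e) ≤ C * (U / 2 * Real.log U ^ e) := by gcongr
        have h9 : C * (U * Real.log U ^ e) = C * (U / 2 * Real.log U ^ e) + C * (U / 2 * Real.log U ^ e) := by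
          ring
        linarith
  refine ⟨C0 + C, max T₀ (Real.exp (A + 1)), by linarith, hT₀.trans (le_max_left _ _), fun T hT S hS => ?_⟩
  have hTT : T₀ ≤ T := (le_max_left _ _).trans hT
  have hT0 : 0 < T := by linarith
  have hlog : A + 1 ≤ Real.log T := by
    rw [Real.le_log_iff_exp_le hT0]
    exact (le_max_right _ _).trans hT
  have hlog0 : 0 < Real.log T := by linarith
  obtain ⟨n, hn⟩ := pow_unbounded_of_one_lt T (one_lt_two)
  have h1 := key n (A / Real.log T) T hTT (by nlinarith [pow_pos (zero_lt_two (α := ℝ)) n])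
    (by positivity) (by rw [div_le_one hlog0]; linarith) le_rfl S hS
  have h2 : 1 ≤ T * Real.log T ^ e := by
    have h3 : (1 : ℝ) ≤ Real.log T ^ e := Real.one_le_rpow (by linarith) he0.le
    nlinarith
  nlinarith

end

end Run7.h563.DM
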