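import Pool.Agent.Run7.h563.DM.D
import Pool.Agent.Q97.UM.Stm12

set_option autoImplicit false

/-!
# The lower bound, from the starting library
-/

namespace Run7.h563.DM

open Complex MeasureTheory Filter Topology Set Pool.Agent.Q97.UM

noncomputable section

/-- the sequence `1, 0, 0, ...` -/
def eone (n : ℕ) : ℂ := if n = 1 then 1 else 0

theorem cv_eone {e : ℕ → ℂ} (h0 : e 0 = 0) (n : ℕ) : cv e eone n = e n := by
  unfold cv eone
  rcases Nat.eq_zero_or_pos n with rfl | hn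
  · simp [h0]
  · rw [Finset.sum_eq_single (n, 1)]
    · simp
    · rintro ⟨p, q⟩ hpq hne
      rcases eq_or_ne q 1 with rfl | hq
      · rw [Nat.mem_divisorsAntidiagonal] at hpq
        simp only [mul_one] at hpq
        exact absurd (by rw [hpq.1]) hne
      · simp [hq]
    · intro h
      exfalso
      apply h
      rw [Nat.mem_divisorsAntidiagonal]
      exact ⟨by simp, hn.ne'⟩

theorem dp_eone (t : ℝ) : ‖dp 1 eone t‖ ^ 2 = 1 := by
  unfold dp eone
  simp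

theorem lower (hLBD : S_LBD) (lam : ℝ) : ∃ c T₀ : ℝ, 0 < c ∧ 4 ≤ T₀ ∧ ∀ T : ℝ, T₀ ≤ T → ∀ S : Finset ℂ,
    (∀ ρ : ℂ, ρ ∈ zs 0 T → ρ ∈ S) →
      c * (T * Real.log T ^ ((lam + 1) ^ 2)) ≤ ∑ ρ ∈ S, ‖deriv riemannZeta ρ‖ ^ (2 * lam) := by
  obtain ⟨d, hd, h⟩ := hLBD
  obtain ⟨δ, θ, c, hδ, hδ2, hθ, hc, hev⟩ := h (max 1 |lam|) (le_max_left _ _)
  obtain ⟨T₁, hT₁⟩ := eventually_atTop.mp hev
  set e0 : ℝ := (lam + 1) ^ 2 with he0
  refine ⟨c ^ 2 / 2 * (1 / 2) ^ e0, max (2 * T₁) 4, by positivity, le_max_right _ _, fun T hT S hS => ?_⟩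
  have hT1 : T₁ ≤ T / 2 := by linarith [(le_max_left (2 * T₁) 4).trans hT]
  have hT4 : 4 ≤ T := (le_max_right _ _).trans hT
  obtain ⟨M, e, hM, he, hN2, hmain⟩ := hT₁ (T / 2) hT1 lam (le_max_right _ _)
  have hT2 : 1 ≤ T / 2 := by linarith
  have hsupp0 : e 0 = 0 := by
    by_contra h0
    have := (he 0 h0).1
    omega
  have h1 := hmain 1 (by
    rw [Nat.cast_one]
    exact Real.one_le_rpow hT2 hθ.le) eone (fun m hm => by
      unfold eone at hm
      by_cases h2 : m = 1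
      · subst h2; exact ⟨le_rfl, le_rfl⟩
      · rw [if_neg h2] at hm
        exact absurd rfl hm)
  have e1 : N2 (M * 1) (cv e eone) = N2 M e := by
    rw [mul_one]
    unfold N2
    exact Finset.sum_congr rfl fun n _ => by rw [cv_eone hsupp0]
  rw [e1] at h1
  have e2 : ∑ s ∈ ZI d (T / 2), ‖deriv riemannZeta s‖ ^ (2 * lam) * ‖dp 1 eone s.im‖ ^ 2 =
      ∑ s ∈ ZI d (T / 2), ‖deriv riemannZeta s‖ ^ (2 * lam) :=
    Finset.sum_congr rfl fun s _ => by rw [dp_eone, mul_one]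
  rw [e2] at h1
  have hsub : ZI d (T / 2) ⊆ S := by
    intro s hs
    apply hS
    unfold ZI at hs
    obtain ⟨a1, a2, -⟩ := Finset.mem_filter.mp hs
    obtain ⟨b1, b2, b3, b4, b5⟩ := (H370.mem_Zf H370.good_zeta hT2).mp a1
    refine ⟨b5, b1, b2, by linarith, by linarith, ?_⟩
    rw [a2]
    norm_num
  have h2 : ∑ s ∈ ZI d (T / 2), ‖deriv riemannZeta s‖ ^ (2 * lam) ≤ ∑ ρ ∈ S, ‖deriv riemannZeta ρ‖ ^ (2 * lam) :=
    Finset.sum_le_sum_of_subset_of_nonneg hsub fun ρ _ _ => by positivity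
  refine le_trans ?_ (h1.trans h2)
  have hL : 0 < Real.log (T / 2) := Real.log_pos (by linarith)
  have hLT : 1 / 2 * Real.log T ≤ Real.log (T / 2) := by
    have h3 : Real.log 4 ≤ Real.log T := Real.log_le_log (by norm_num) hT4
    have h4 : Real.log 4 = 2 * Real.log 2 := by
      rw [show (4 : ℝ) = 2 ^ 2 by norm_num, Real.log_pow]
      norm_num
    rw [Real.log_div (by linarith) (by norm_num)]
    linarith
  have hLT0 : 0 < Real.log T := Real.log_pos (by linarith)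
  have hpow : (1 / 2) ^ e0 * Real.log T ^ e0 ≤ Real.log (T / 2) ^ e0 := by
    rw [← Real.mul_rpow (by norm_num) hLT0.le]
    exact Real.rpow_le_rpow (by positivity) hLT (by positivity)
  have e3 : Real.log (T / 2) ^ e0 = Real.log (T / 2) ^ (1 + 2 * lam) * Real.log (T / 2) ^ (lam ^ 2) := by
    rw [← Real.rpow_add hL]
    congr 1
    rw [he0]
    ring
  have hc1 : 0 ≤ c * (T / 2) * Real.log (T / 2) ^ (1 + 2 * lam) := by positivity
  calc c ^ 2 / 2 * (1 / 2) ^ e0 * (T * Real.log T ^ e0)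
      = c ^ 2 * (T / 2) * ((1 / 2) ^ e0 * Real.log T ^ e0) := by ring
    _ ≤ c ^ 2 * (T / 2) * Real.log (T / 2) ^ e0 := by gcongr
    _ = c * (T / 2) * Real.log (T / 2) ^ (1 + 2 * lam) * (c * Real.log (T / 2) ^ (lam ^ 2)) := by
        rw [e3]; ring
    _ ≤ c * (T / 2) * Real.log (T / 2) ^ (1 + 2 * lam) * N2 M e := by gcongr

end

end Run7.h563.DM
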